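import Mathlib

set_option autoImplicit false

namespace Pool.Agent.Results.MP_8870f3_co.UpperBound

/-- The `k`-th power of the `n`-cycle: distinct `i, j` in `ZMod n` are adjacent iff
`j - i = d` or `j - i = -d` for some `1 ≤ d ≤ k`. -/
def cyclePower (n k : ℕ) : SimpleGraph (ZMod n) where
  Adj i j := i ≠ j ∧ ∃ d : ℕ, 1 ≤ d ∧ d ≤ k ∧ (j - i = (d : ZMod n) ∨ j - i = -(d : ZMod n))
  symm := ⟨fun i j ⟨h, d, h1, h2, h3⟩ => ⟨h.symm, d, h1, h2, by
    rcases h3 with h3 | h3
    · right; rw [← h3]; ring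
    · left; rw [← neg_sub, h3, neg_neg]⟩⟩
  loopless := ⟨fun i h => h.1 rfl⟩

/-- `H` is an `α`-subgraph of `G`. -/
def IsAlphaSubgraph {V : Type*} (α : ℝ) (G H : SimpleGraph V) : Prop :=
  H ≤ G ∧ ∀ v, α * ((G.neighborSet v).ncard : ℝ) ≤ ((H.neighborSet v).ncard : ℝ)

/-- `H` has a `K_t`-factor: its vertices can be labelled so that the vertices with the same label
are pairwise adjacent and every label class has exactly `t` vertices. -/
def HasCliqueFactor {V : Type*} (H : SimpleGraph V) (t : ℕ) : Prop :=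
  ∃ c : V → ℕ, (∀ u v, u ≠ v → c u = c v → H.Adj u v) ∧ ∀ u, {v | c v = c u}.ncard = t

/-- The set `A_t` of the problem. -/
def A (t : ℕ) : Set ℝ :=
  {α | 0 < α ∧ ∃ k0 : ℕ, ∀ k ≥ k0, ∀ n ≥ k, 1 ≤ n → t ∣ n →
    ∀ H : SimpleGraph (ZMod n), IsAlphaSubgraph α (cyclePower n k) H → HasCliqueFactor H t}

/-- A swap argument: with conflict degree `≤ D` and `r ≥ 2 D` classes there is an equitable
conflict-free partition into `r` classes of `t` elements. -/
theorem equitable {α : Type*} [Fintype α] [DecidableEq α] (conf : α → α → Prop)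
    (hsymm : ∀ u v, conf u v → conf v u) (hirr : ∀ u, ¬ conf u u) (r t D : ℕ)
    (hcard : Fintype.card α = r * t) (hdeg : ∀ v, {u | conf v u}.ncard ≤ D) (hr : 2 * D ≤ r) :
    ∃ σ : α ≃ Fin r × Fin t, ∀ u v, conf u v → (σ u).1 ≠ (σ v).1 := by
  classical
  let cnt : (α ≃ Fin r × Fin t) → ℕ := fun σ =>
    ((Finset.univ : Finset (α × α)).filter
      (fun p => conf p.1 p.2 ∧ (σ p.1).1 = (σ p.2).1)).card
  have hne : Nonempty (α ≃ Fin r × Fin t) := by
    refine ⟨Fintype.equivOfCardEq ?_⟩
    rw [hcard, Fintype.card_prod, Fintype.card_fin, Fintype.card_fin]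
  obtain ⟨σ, -, hσ⟩ := Finset.exists_min_image (Finset.univ : Finset (α ≃ Fin r × Fin t)) cnt
    ⟨hne.some, Finset.mem_univ _⟩
  refine ⟨σ, ?_⟩
  intro x y hxy hcls
  -- the bad vertices
  let nb : α → Finset α := fun v => Finset.univ.filter (fun u => conf v u)
  have hnb : ∀ v, (nb v).card ≤ D := by
    intro v
    have h := hdeg v
    rw [Set.ncard_eq_toFinset_card'] at h
    convert h using 2
    ext u
    simp [nb]
  let badcls : Finset (Fin r) := (nb x).image (fun u => (σ u).1)
  have hbadcls : badcls.card ≤ D := (Finset.card_image_le).trans (hnb x)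
  let cl : Fin r → Finset α := fun j => Finset.univ.filter (fun z => (σ z).1 = j)
  have hcl : ∀ j, (cl j).card = t := by
    intro j
    have : cl j = (Finset.univ : Finset (Fin t)).image (fun i => σ.symm (j, i)) := by
      ext z
      simp only [cl, Finset.mem_filter, Finset.mem_univ, true_and, Finset.mem_image]
      constructor
      · intro h
        refine ⟨(σ z).2, ?_⟩
        rw [← h]
        exact σ.symm_apply_apply z
      · rintro ⟨i, rfl⟩
        rw [σ.apply_symm_apply]
    rw [this, Finset.card_image_of_injective, Finset.card_univ, Fintype.card_fin]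
    intro a b h
    have := σ.symm.injective h
    exact (Prod.mk.inj this).2
  let B1 : Finset α := badcls.biUnion cl
  let B2 : Finset α := ((cl (σ x).1).erase x).biUnion nb
  have hB1 : B1.card ≤ D * t := by
    calc B1.card ≤ ∑ j ∈ badcls, (cl j).card := Finset.card_biUnion_le
      _ = badcls.card * t := by rw [Finset.sum_congr rfl (fun j _ => hcl j)]; simp
      _ ≤ D * t := Nat.mul_le_mul_right _ hbadcls
  have hxcl : x ∈ cl (σ x).1 := by simp [cl]
  have ht1 : 1 ≤ t := by
    rw [← hcl (σ x).1]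
    exact Finset.card_pos.mpr ⟨x, hxcl⟩
  have hB2 : B2.card ≤ (t - 1) * D := by
    calc B2.card ≤ ∑ u ∈ (cl (σ x).1).erase x, (nb u).card := Finset.card_biUnion_le
      _ ≤ ∑ u ∈ (cl (σ x).1).erase x, D := Finset.sum_le_sum (fun u _ => hnb u)
      _ = (t - 1) * D := by
        rw [Finset.sum_const, Finset.card_erase_of_mem hxcl, hcl, smul_eq_mul]
  have hD1 : 1 ≤ D := by
    refine le_trans ?_ (hnb x)
    exact Finset.card_pos.mpr ⟨y, by simp [nb, hxy]⟩
  have hlt : (B1 ∪ B2).card < Fintype.card α := by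
    have h1 := Finset.card_union_le B1 B2
    obtain ⟨s, rfl⟩ : ∃ s, t = s + 1 := ⟨t - 1, by omega⟩
    rw [hcard]
    have h2 : 2 * D * (s + 1) ≤ r * (s + 1) := Nat.mul_le_mul_right _ hr
    simp only [Nat.add_sub_cancel] at hB2
    nlinarith
  obtain ⟨z, hz⟩ : ∃ z, z ∉ B1 ∪ B2 := by
    by_contra hcon
    push Not at hcon
    have : (B1 ∪ B2) = Finset.univ := Finset.eq_univ_iff_forall.mpr hcon
    rw [this, Finset.card_univ] at hlt
    exact lt_irrefl _ hlt
  rw [Finset.mem_union, not_or] at hz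
  have hzb : ∀ u, conf x u → (σ u).1 ≠ (σ z).1 := by
    intro u hu he
    apply hz.1
    refine Finset.mem_biUnion.mpr ⟨(σ u).1, ?_, ?_⟩
    · exact Finset.mem_image.mpr ⟨u, by simp [nb, hu], rfl⟩
    · simp [cl, he]
  have hza : (σ z).1 ≠ (σ x).1 := by
    intro he
    exact hzb y hxy (hcls.symm.trans he.symm)
  have hzc : ∀ u, (σ u).1 = (σ x).1 → u ≠ x → ¬ conf z u := by
    intro u hu hux hzu
    apply hz.2
    refine Finset.mem_biUnion.mpr ⟨u, ?_, ?_⟩
    · exact Finset.mem_erase.mpr ⟨hux, by simp [cl, hu]⟩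
    · simp [nb, hsymm _ _ hzu]
  have hxz : x ≠ z := fun h => hza (by rw [h])
  let σ' : α ≃ Fin r × Fin t := (Equiv.swap x z).trans σ
  have s1 : σ' x = σ z := by simp [σ']
  have s2 : σ' z = σ x := by simp [σ']
  have s3 : ∀ u, u ≠ x → u ≠ z → σ' u = σ u := by
    intro u h1 h2
    simp [σ', Equiv.swap_apply_of_ne_of_ne h1 h2]
  have key : ∀ u v, conf u v → (σ' u).1 = (σ' v).1 → u ≠ x ∧ u ≠ z := by
    intro u v huv he
    constructor
    · intro hux
      rw [hux] at huv he
      rw [s1] at he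
      have hvx : v ≠ x := fun h => hirr x (by rw [h] at huv; exact huv)
      by_cases hvz : v = z
      · rw [hvz, s2] at he
        exact hza he
      · rw [s3 v hvx hvz] at he
        exact hzb v huv he.symm
    · intro huz
      rw [huz] at huv he
      rw [s2] at he
      have hvz : v ≠ z := fun h => hirr z (by rw [h] at huv; exact huv)
      by_cases hvx : v = x
      · rw [hvx, s1] at he
        exact hza he.symm
      · rw [s3 v hvx hvz] at he
        exact hzc v he.symm hvx huv
  have hsub : ((Finset.univ : Finset (α × α)).filter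
      (fun p => conf p.1 p.2 ∧ (σ' p.1).1 = (σ' p.2).1)) ⊂
      ((Finset.univ : Finset (α × α)).filter
      (fun p => conf p.1 p.2 ∧ (σ p.1).1 = (σ p.2).1)) := by
    rw [Finset.ssubset_iff_of_subset]
    · refine ⟨(x, y), ?_, ?_⟩
      · simp [hxy, hcls]
      · intro h
        rw [Finset.mem_filter] at h
        exact (key x y h.2.1 h.2.2).1 rfl
    · intro p hp
      rw [Finset.mem_filter] at hp ⊢
      obtain ⟨-, h1, h2⟩ := hp
      have k1 := key p.1 p.2 h1 h2
      have k2 := key p.2 p.1 (hsymm _ _ h1) h2.symm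
      rw [s3 _ k1.1 k1.2, s3 _ k2.1 k2.2] at h2
      exact ⟨Finset.mem_univ _, h1, h2⟩
  have h1 := Finset.card_lt_card hsub
  have h2 := hσ σ' (Finset.mem_univ _)
  simp only [cnt] at h2
  omega

/-- `H[W]` has a `K_t`-factor. -/
def Fact {V : Type*} (H : SimpleGraph V) (t : ℕ) (W : Set V) : Prop :=
  ∃ c : V → ℕ, (∀ u ∈ W, ∀ v ∈ W, u ≠ v → c u = c v → H.Adj u v) ∧
    ∀ u ∈ W, {v | v ∈ W ∧ c v = c u}.ncard = t

theorem Fact.empty {V : Type*} (H : SimpleGraph V) (t : ℕ) : Fact H t (∅ : Set V) :=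
  ⟨fun _ => 0, fun u hu => absurd hu (Set.notMem_empty u), fun u hu => absurd hu (Set.notMem_empty u)⟩

theorem Fact.union {V : Type*} {H : SimpleGraph V} {t : ℕ} {W₁ W₂ : Set V}
    (hd : ∀ v, v ∈ W₁ → v ∉ W₂) (h₁ : Fact H t W₁) (h₂ : Fact H t W₂) : Fact H t (W₁ ∪ W₂) := by
  classical
  obtain ⟨c₁, a₁, b₁⟩ := h₁
  obtain ⟨c₂, a₂, b₂⟩ := h₂
  refine ⟨fun v => if v ∈ W₁ then 2 * c₁ v else 2 * c₂ v + 1, ?_, ?_⟩
  · intro u hu v hv huv h
    rcases hu with hu | hu <;> rcases hv with hv | hv
    · simp only [if_pos hu, if_pos hv] at h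
      exact a₁ u hu v hv huv (by omega)
    · have hv' : v ∉ W₁ := fun h' => hd v h' hv
      simp only [if_pos hu, if_neg hv'] at h
      omega
    · have hu' : u ∉ W₁ := fun h' => hd u h' hu
      simp only [if_neg hu', if_pos hv] at h
      omega
    · have hv' : v ∉ W₁ := fun h' => hd v h' hv
      have hu' : u ∉ W₁ := fun h' => hd u h' hu
      simp only [if_neg hu', if_neg hv'] at h
      exact a₂ u hu v hv huv (by omega)
  · intro u hu
    rcases hu with hu | hu
    · rw [← b₁ u hu]
      congr 1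
      ext v
      simp only [Set.mem_ofPred_eq, Set.mem_union, if_pos hu]
      constructor
      · rintro ⟨hv | hv, h⟩
        · rw [if_pos hv] at h
          exact ⟨hv, by omega⟩
        · have hv' : v ∉ W₁ := fun h' => hd v h' hv
          rw [if_neg hv'] at h
          omega
      · rintro ⟨hv, h⟩
        exact ⟨Or.inl hv, by rw [if_pos hv, h]⟩
    · have hu' : u ∉ W₁ := fun h' => hd u h' hu
      rw [← b₂ u hu]
      congr 1
      ext v
      simp only [Set.mem_ofPred_eq, Set.mem_union, if_neg hu']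
      constructor
      · rintro ⟨hv | hv, h⟩
        · rw [if_pos hv] at h
          omega
        · have hv' : v ∉ W₁ := fun h' => hd v h' hv
          rw [if_neg hv'] at h
          exact ⟨hv, by omega⟩
      · rintro ⟨hv, h⟩
        have hv' : v ∉ W₁ := fun h' => hd v h' hv
        exact ⟨Or.inr hv, by rw [if_neg hv', h]⟩

/-- a window in which all pairs are adjacent in the host graph `G` -/
theorem fact_window {V : Type*} [Finite V] (G H : SimpleGraph V) (t r D : ℕ) (W : Set V)
    (hcl : ∀ u ∈ W, ∀ v ∈ W, u ≠ v → G.Adj u v) (hW : W.ncard = r * t)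
    (hmiss : ∀ v, {u | G.Adj v u ∧ ¬ H.Adj v u}.ncard ≤ D) (hr : 2 * D ≤ r) : Fact H t W := by
  classical
  have : Fintype V := Fintype.ofFinite V
  have : Fintype W := Fintype.ofFinite W
  obtain ⟨σ, hσ⟩ := equitable (α := W) (fun u v => u ≠ v ∧ ¬ H.Adj u.1 v.1)
    (fun u v h => ⟨h.1.symm, fun h' => h.2 h'.symm⟩) (fun u h => h.1 rfl) r t D
    (by rw [← hW, Set.ncard_eq_toFinset_card', Set.toFinset_card])
    (by
      intro v
      refine le_trans ?_ (hmiss v.1)
      have : (Subtype.val '' {u : W | v ≠ u ∧ ¬ H.Adj v.1 u.1}) ⊆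
          {u | G.Adj v.1 u ∧ ¬ H.Adj v.1 u} := by
        rintro _ ⟨u, ⟨h1, h2⟩, rfl⟩
        exact ⟨hcl v.1 v.2 u.1 u.2 (fun h => h1 (Subtype.ext h)), h2⟩
      rw [← Set.ncard_image_of_injective _ Subtype.val_injective]
      exact Set.ncard_le_ncard this (Set.toFinite _)) hr
  refine ⟨fun v => if h : v ∈ W then ((σ ⟨v, h⟩).1 : ℕ) else 0, ?_, ?_⟩
  · intro u hu v hv huv h
    simp only [dif_pos hu, dif_pos hv] at h
    by_contra hcon
    exact hσ ⟨u, hu⟩ ⟨v, hv⟩ ⟨fun h' => huv (congrArg Subtype.val h'), hcon⟩ (Fin.ext h)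
  · intro u hu
    have hset : {v | v ∈ W ∧ (if h : v ∈ W then ((σ ⟨v, h⟩).1 : ℕ) else 0) =
        (if h : u ∈ W then ((σ ⟨u, h⟩).1 : ℕ) else 0)} =
        Set.range (fun i : Fin t => ((σ.symm ((σ ⟨u, hu⟩).1, i)) : W).1) := by
      ext v
      simp only [Set.mem_ofPred_eq, Set.mem_range]
      constructor
      · rintro ⟨hv, h⟩
        rw [dif_pos hv, dif_pos hu] at h
        refine ⟨(σ ⟨v, hv⟩).2, ?_⟩
        have : ((σ ⟨u, hu⟩).1, (σ ⟨v, hv⟩).2) = σ ⟨v, hv⟩ := by
          rw [← Fin.ext h]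
        rw [this, σ.symm_apply_apply]
      · rintro ⟨i, rfl⟩
        have hm := (σ.symm ((σ ⟨u, hu⟩).1, i)).2
        refine ⟨hm, ?_⟩
        rw [dif_pos hm, dif_pos hu]
        have : (⟨(σ.symm ((σ ⟨u, hu⟩).1, i)).1, hm⟩ : W) = σ.symm ((σ ⟨u, hu⟩).1, i) := rfl
        rw [this, σ.apply_symm_apply]
    rw [hset, ← Set.image_univ, Set.ncard_image_of_injective, Set.ncard_univ, Nat.card_eq_fintype_card,
      Fintype.card_fin]
    intro a b h
    have := σ.symm.injective (Subtype.ext h)
    exact (Prod.mk.inj this).2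

/-- a number of blocks between `m a` and `m q` splits into `m` numbers between `a` and `q` -/
theorem fact_interval (n k : ℕ) [NeZero n] (H : SimpleGraph (ZMod n)) (t D a q : ℕ)
    (hmiss : ∀ v, {u | (cyclePower n k).Adj v u ∧ ¬ H.Adj v u}.ncard ≤ D)
    (ha : 2 * D ≤ a) (haq : a ≤ q) (hq : t * q ≤ k + 1) (m : ℕ) :
    ∀ N s : ℕ, m * a ≤ N → N ≤ m * q → s + t * N ≤ n →
      Fact H t {v : ZMod n | s ≤ v.val ∧ v.val < s + t * N} := by
  induction m with
  | zero =>
    intro N s h1 h2 h3
    have hN : N = 0 := by omega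
    subst hN
    have : {v : ZMod n | s ≤ v.val ∧ v.val < s + t * 0} = ∅ := by
      ext v
      simp only [Set.mem_ofPred_eq, Set.mem_empty_iff_false, iff_false]
      omega
    rw [this]
    exact Fact.empty H t
  | succ m ih =>
    intro N s h1 h2 h3
    obtain ⟨r, hra, hrq, hrN, hr1, hr2⟩ : ∃ r, a ≤ r ∧ r ≤ q ∧ r ≤ N ∧ m * a ≤ N - r ∧
        N - r ≤ m * q := by
      rw [Nat.succ_mul] at h1 h2
      by_cases h : N ≤ m * q + a
      · exact ⟨a, le_refl _, haq, by omega, by omega, by omega⟩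
      · have : m * a ≤ m * q := Nat.mul_le_mul_left _ haq
        exact ⟨N - m * q, by omega, by omega, by omega, by omega, by omega⟩
    have hN : t * N = t * r + t * (N - r) := by
      rw [← Nat.mul_add]
      congr 1
      omega
    have hset : {v : ZMod n | s ≤ v.val ∧ v.val < s + t * N} =
        {v : ZMod n | s ≤ v.val ∧ v.val < s + t * r} ∪
        {v : ZMod n | (s + t * r) ≤ v.val ∧ v.val < (s + t * r) + t * (N - r)} := by
      ext v
      simp only [Set.mem_ofPred_eq, Set.mem_union]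
      omega
    rw [hset]
    apply Fact.union
    · intro v hv hv'
      simp only [Set.mem_ofPred_eq] at hv hv'
      omega
    · apply fact_window (cyclePower n k) H t r D
      · intro u hu v hv huv
        simp only [Set.mem_ofPred_eq] at hu hv
        have htr : t * r ≤ k + 1 := (Nat.mul_le_mul_left _ hrq).trans hq
        have hne : u.val ≠ v.val := fun h => huv (ZMod.val_injective n h)
        refine ⟨huv, ?_⟩
        rcases Nat.lt_or_gt_of_ne hne with h | h
        · refine ⟨v.val - u.val, by omega, by omega, Or.inl ?_⟩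
          rw [Nat.cast_sub h.le, ZMod.natCast_zmod_val, ZMod.natCast_zmod_val]
        · refine ⟨u.val - v.val, by omega, by omega, Or.inr ?_⟩
          rw [Nat.cast_sub h.le, ZMod.natCast_zmod_val, ZMod.natCast_zmod_val]
          ring
      · -- the number of vertices of the window
        have hinj : Function.Injective (fun v : ZMod n => v.val) := ZMod.val_injective n
        rw [← Set.ncard_image_of_injective _ hinj]
        have : ((fun v : ZMod n => v.val) '' {v : ZMod n | s ≤ v.val ∧ v.val < s + t * r}) =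
            (Finset.Ico s (s + t * r) : Set ℕ) := by
          ext x
          simp only [Set.mem_image, Set.mem_ofPred_eq, Finset.coe_Ico, Set.mem_Ico]
          constructor
          · rintro ⟨v, hv, rfl⟩
            exact hv
          · intro hx
            have hxn : x < n := by omega
            exact ⟨(x : ZMod n), by rw [ZMod.val_natCast_of_lt hxn]; exact hx,
              ZMod.val_natCast_of_lt hxn⟩
        rw [this, Set.ncard_coe_finset, Nat.card_Ico]
        rw [Nat.mul_comm]
        omega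
      · exact hmiss
      · omega
    · exact ih (N - r) (s + t * r) hr1 hr2 (by omega)

theorem card_neighbors (n k : ℕ) [NeZero n] (v : ZMod n) :
    ((cyclePower n k).neighborSet v).ncard ≤ 2 * k := by
  classical
  have hsub : (cyclePower n k).neighborSet v ⊆
      (((Finset.Icc 1 k).image (fun d : ℕ => v + (d : ZMod n)) ∪
        (Finset.Icc 1 k).image (fun d : ℕ => v - (d : ZMod n)) : Finset (ZMod n)) :
        Set (ZMod n)) := by
    intro u hu
    obtain ⟨-, d, h1, h2, h3⟩ := hu
    rw [Finset.mem_coe, Finset.mem_union]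
    rcases h3 with h3 | h3
    · left
      exact Finset.mem_image.mpr ⟨d, Finset.mem_Icc.mpr ⟨h1, h2⟩, by rw [← h3]; ring⟩
    · right
      exact Finset.mem_image.mpr ⟨d, Finset.mem_Icc.mpr ⟨h1, h2⟩, by
        rw [sub_eq_add_neg, ← h3]; ring⟩
  have h1 := Set.ncard_le_ncard hsub (Set.toFinite _)
  rw [Set.ncard_coe_finset] at h1
  refine h1.trans ((Finset.card_union_le _ _).trans ?_)
  have h2 := Finset.card_image_le (s := Finset.Icc 1 k) (f := fun d : ℕ => v + (d : ZMod n))
  have h3 := Finset.card_image_le (s := Finset.Icc 1 k) (f := fun d : ℕ => v - (d : ZMod n))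
  rw [Nat.card_Icc] at h2 h3
  omega

theorem missing (n k D : ℕ) [NeZero n] (α δ : ℝ) (hδ : 0 ≤ δ) (hα : 1 - δ ≤ α)
    (hD : δ * (2 * k) < (D : ℝ) + 1)
    (H : SimpleGraph (ZMod n)) (hH : IsAlphaSubgraph α (cyclePower n k) H) (v : ZMod n) :
    {u | (cyclePower n k).Adj v u ∧ ¬ H.Adj v u}.ncard ≤ D := by
  classical
  have hset : {u | (cyclePower n k).Adj v u ∧ ¬ H.Adj v u} =
      (cyclePower n k).neighborSet v \ H.neighborSet v := by
    ext u
    simp [SimpleGraph.mem_neighborSet]
  have hle : H.neighborSet v ⊆ (cyclePower n k).neighborSet v := fun u hu => hH.1 hu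
  have h1 := Set.ncard_sdiff_add_ncard_of_subset hle (Set.toFinite _)
  have h2 := hH.2 v
  have h3 : (((cyclePower n k).neighborSet v).ncard : ℝ) ≤ 2 * k := by
    exact_mod_cast card_neighbors n k v
  rw [hset]
  set X := ((cyclePower n k).neighborSet v \ H.neighborSet v).ncard with hX
  set Y := (H.neighborSet v).ncard with hY
  set Z := ((cyclePower n k).neighborSet v).ncard with hZ
  have h4 : (X : ℝ) + Y = Z := by exact_mod_cast h1
  have h5 : (X : ℝ) < (D : ℝ) + 1 := by
    have hZ0 : (0 : ℝ) ≤ (Z : ℝ) := Nat.cast_nonneg _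
    have h6 : (1 - δ) * (Z : ℝ) ≤ α * Z := mul_le_mul_of_nonneg_right hα hZ0
    have h7 : δ * (Z : ℝ) ≤ δ * (2 * k) := mul_le_mul_of_nonneg_left h3 hδ
    nlinarith
  have h6 : X < D + 1 := by exact_mod_cast h5
  omega

theorem Fact.toFactor {V : Type*} {H : SimpleGraph V} {t : ℕ} (h : Fact H t Set.univ) :
    HasCliqueFactor H t := by
  obtain ⟨c, h1, h2⟩ := h
  refine ⟨c, fun u v huv h => h1 u (Set.mem_univ _) v (Set.mem_univ _) huv h, ?_⟩
  intro u
  rw [← h2 u (Set.mem_univ _)]
  congr 1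
  ext v
  simp

/-- for `n ≤ 2k+1` the host graph is complete -/
theorem complete_of_le (n k : ℕ) [NeZero n] (h : n ≤ 2 * k + 1) (u v : ZMod n) (huv : u ≠ v) :
    (cyclePower n k).Adj u v := by
  refine ⟨huv, ?_⟩
  have hlt : (v - u).val < n := ZMod.val_lt _
  have hpos : 1 ≤ (v - u).val := by
    rw [Nat.one_le_iff_ne_zero]
    intro h0
    rw [ZMod.val_eq_zero] at h0
    exact huv (sub_eq_zero.mp h0).symm
  by_cases hk : (v - u).val ≤ k
  · exact ⟨(v - u).val, hpos, hk, Or.inl (ZMod.natCast_zmod_val _).symm⟩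
  · refine ⟨n - (v - u).val, by omega, by omega, Or.inr ?_⟩
    rw [Nat.cast_sub hlt.le, ZMod.natCast_self, ZMod.natCast_zmod_val]
    ring

/-- Every `α > 1 - 1/(6t)` lies in `A_t`; hence `inf A_t ≤ 1 - 1/(6t)`. -/
theorem result : ∀ t : ℕ, 3 ≤ t → ∀ α : ℝ, 1 - 1 / (6 * (t : ℝ)) < α → α ∈ A t := by
  intro t ht α hα
  have ht0 : (0 : ℝ) < t := by exact_mod_cast (by omega : 0 < t)
  have ht3 : (3 : ℝ) ≤ t := by exact_mod_cast ht
  have hlast : 1 / (6 * (t : ℝ)) ≤ 1 / 18 := by
    apply one_div_le_one_div_of_le (by norm_num)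
    linarith
  refine ⟨by linarith, ?_⟩
  set δ : ℝ := max (1 - α) 0 with hδdef
  have hδ0 : 0 ≤ δ := le_max_right _ _
  have hδα : 1 - δ ≤ α := by
    have := le_max_left (1 - α) 0
    linarith
  have hδ : δ < 1 / (6 * (t : ℝ)) := by
    apply max_lt
    · linarith
    · positivity
  set η : ℝ := 1 / (6 * (t : ℝ)) - δ with hηdef
  have hη : 0 < η := by linarith
  refine ⟨max ⌈1 / (6 * η)⌉₊ (2 * t), ?_⟩
  intro k hk n hnk hn1 htn H hH
  have : NeZero n := ⟨by omega⟩
  have hk1 : 1 / (6 * η) ≤ (k : ℝ) :=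
    (Nat.le_ceil _).trans (by exact_mod_cast (le_max_left _ _).trans hk)
  have hk2 : 2 * t ≤ k := (le_max_right _ _).trans hk
  have hk0 : (0 : ℝ) ≤ (k : ℝ) := Nat.cast_nonneg _
  have hkη : 1 ≤ 6 * η * k := by
    rw [div_le_iff₀ (by positivity)] at hk1
    linarith
  have htδ : 6 * (t : ℝ) * δ = 1 - 6 * t * η := by
    rw [hηdef]
    field_simp
    ring
  set D : ℕ := ⌊δ * (2 * k)⌋₊ with hDdef
  have hD1 : (D : ℝ) ≤ δ * (2 * k) := Nat.floor_le (by positivity)
  have hD2 : δ * (2 * k) < (D : ℝ) + 1 := Nat.lt_floor_add_one _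
  have hmiss : ∀ v, {u | (cyclePower n k).Adj v u ∧ ¬ H.Adj v u}.ncard ≤ D := fun v =>
    missing n k D α δ hδ0 hδα hD2 H hH v
  obtain ⟨N, hN⟩ := htn
  by_cases hn : n ≤ 2 * k + 1
  · -- the whole vertex set is a clique of the host graph
    apply Fact.toFactor
    apply fact_window (cyclePower n k) H t N D
    · intro u _ v _ huv
      exact complete_of_le n k hn u v huv
    · rw [Set.ncard_univ, Nat.card_eq_fintype_card, ZMod.card]
      rw [hN, Nat.mul_comm]
    · exact hmiss
    · have h1 : (2 * (D : ℝ)) * t ≤ (N : ℝ) * t := by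
        have h2 : (N : ℝ) * t = n := by
          rw [hN]; push_cast; ring
        have h3 : (k : ℝ) ≤ n := by exact_mod_cast hnk
        rw [h2]
        have h4 : (D : ℝ) * t ≤ δ * (2 * k) * t := mul_le_mul_of_nonneg_right hD1 ht0.le
        have h5 : 6 * (t : ℝ) * δ * k ≤ k := by
          rw [htδ]
          have : 0 ≤ 6 * (t : ℝ) * η * k := by positivity
          linarith
        nlinarith
      have h2 := le_of_mul_le_mul_right h1 ht0
      exact_mod_cast h2
  · -- intervals
    set q : ℕ := (k + 1) / t with hqdef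
    have hqt : t * q ≤ k + 1 := Nat.mul_div_le _ _
    have hqt2 : k + 1 < t * q + t := by
      have h1 := Nat.div_add_mod (k + 1) t
      have h2 := Nat.mod_lt (k + 1) (show t > 0 by omega)
      rw [← hqdef] at h1
      omega
    have hq2 : 2 ≤ q := by
      rw [hqdef, Nat.le_div_iff_mul_le (by omega)]
      omega
    have h3D : 3 * (2 * D) ≤ 2 * q := by
      have h1 : (3 * (2 * (D : ℝ))) * t ≤ (2 * (q : ℝ)) * t := by
        have h2 : (k : ℝ) + 1 < t * q + t := by exact_mod_cast hqt2
        have h4 : (D : ℝ) * t ≤ δ * (2 * k) * t := mul_le_mul_of_nonneg_right hD1 ht0.le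
        have h5 : 6 * (t : ℝ) * δ * k = k - 6 * t * η * k := by
          rw [htδ]; ring
        have h6 : (t : ℝ) ≤ 6 * t * η * k := by nlinarith
        nlinarith
      have h2 := le_of_mul_le_mul_right h1 ht0
      exact_mod_cast h2
    set a : ℕ := max (2 * D) 1 with hadef
    have ha1 : 2 * D ≤ a := le_max_left _ _
    have ha2 : 3 * a ≤ 2 * q := by
      rw [hadef]
      rcases le_total (2 * D) 1 with h | h
      · rw [max_eq_right h]; omega
      · rw [max_eq_left h]; exact h3D
    have haq : a ≤ q := by omega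
    have hNq : 2 * q ≤ N := by
      have h1 : t * (2 * q) ≤ t * N := by
        rw [← hN]
        calc t * (2 * q) = 2 * (t * q) := by ring
          _ ≤ 2 * (k + 1) := Nat.mul_le_mul_left _ hqt
          _ ≤ n := by omega
      exact Nat.le_of_mul_le_mul_left h1 (by omega)
    obtain ⟨m, hm1, hm2⟩ : ∃ m, m * a ≤ N ∧ N ≤ m * q := by
      refine ⟨(N + (q - 1)) / q, ?_, ?_⟩
      · have h1 : (N + (q - 1)) / q * q ≤ N + (q - 1) := Nat.div_mul_le_self _ _
        set m := (N + (q - 1)) / q
        have h2 : m * (3 * a) ≤ m * (2 * q) := Nat.mul_le_mul_left _ ha2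
        have h3 : m * (3 * a) = 3 * (m * a) := by ring
        have h4 : m * (2 * q) = 2 * (m * q) := by ring
        omega
      · have h1 := Nat.div_add_mod (N + (q - 1)) q
        have h2 := Nat.mod_lt (N + (q - 1)) (show q > 0 by omega)
        rw [Nat.mul_comm ((N + (q - 1)) / q) q]
        omega
    have hfact := fact_interval n k H t D a q hmiss ha1 haq hqt m N 0 hm1 hm2 (by omega)
    apply Fact.toFactor
    convert hfact using 1
    symm
    rw [Set.eq_univ_iff_forall]
    intro v
    refine ⟨Nat.zero_le _, ?_⟩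
    have := ZMod.val_lt v
    omega

end Pool.Agent.Results.MP_8870f3_co.UpperBound
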